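import Pool.Agent.Helper70.Art.Farkas

/-!
# Block RS-L3: the conditions of Karush, Kuhn and Tucker with at most three active constraints
-/

set_option autoImplicit false

namespace Pool.Agent.Helper1.RS

open Module

/-- the theorem of Caratheodory for cones -/
theorem cone_car {V : Type*} [AddCommGroup V] [Module ℝ V] [FiniteDimensional ℝ V] {n : ℕ}
    (a : Fin n → V) : ∀ (m : ℕ) (S : Finset (Fin n)) (g : Fin n → ℝ), S.card ≤ m →
    (∀ i ∈ S, 0 < g i) → ∃ (T : Finset (Fin n)) (h : Fin n → ℝ), T ⊆ S ∧ T.card ≤ finrank ℝ V ∧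
      (∀ i ∈ T, 0 < h i) ∧ ∑ i ∈ S, g i • a i = ∑ i ∈ T, h i • a i := by
  intro m
  induction m with
  | zero =>
    intro S g hS hg
    exact ⟨S, g, subset_rfl, hS.trans (Nat.zero_le _), hg, rfl⟩
  | succ m ih =>
    intro S g hS hg
    by_cases hcard : S.card ≤ finrank ℝ V
    · exact ⟨S, g, subset_rfl, hcard, hg, rfl⟩
    have hdep : ¬ LinearIndependent ℝ (fun i : S => a i) := by
      intro hli
      have h1 := hli.fintype_card_le_finrank
      rw [Fintype.card_coe] at h1
      exact hcard h1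
    rw [Fintype.not_linearIndependent_iff] at hdep
    obtain ⟨t0, ht0, j0, hj0⟩ := hdep
    -- a relation with a positive coefficient
    obtain ⟨t, ht, j, hjS, hj⟩ : ∃ t : Fin n → ℝ, ∑ i ∈ S, t i • a i = 0 ∧ ∃ j ∈ S, 0 < t j := by
      have key : ∀ s : S → ℝ, ∑ i, s i • a i = 0 → ∀ j : S, 0 < s j →
          ∃ t : Fin n → ℝ, ∑ i ∈ S, t i • a i = 0 ∧ ∃ j ∈ S, 0 < t j := by
        intro s hs j hj
        refine ⟨fun i => if h : i ∈ S then s ⟨i, h⟩ else 0, ?_, j, j.2, ?_⟩
        · rw [← Finset.sum_coe_sort S, ← hs]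
          refine Finset.sum_congr rfl fun i _ => ?_
          simp
        · simpa using hj
      rcases lt_or_gt_of_ne hj0 with h | h
      · refine key (fun i => - t0 i) ?_ j0 (by simpa using h)
        simp only [neg_smul, Finset.sum_neg_distrib, ht0, neg_zero]
      · exact key t0 ht0 j0 h
    have hne : (S.filter fun i => 0 < t i).Nonempty := ⟨j, Finset.mem_filter.2 ⟨hjS, hj⟩⟩
    obtain ⟨k, hk, hmin⟩ := Finset.exists_min_image _ (fun i => g i / t i) hne
    rw [Finset.mem_filter] at hk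
    obtain ⟨hkS, hkt⟩ := hk
    set r := g k / t k with hr
    have hr0 : 0 ≤ r := (div_pos (hg k hkS) hkt).le
    have hnn : ∀ i ∈ S, 0 ≤ g i - r * t i := by
      intro i hi
      rcases le_or_gt (t i) 0 with h | h
      · have h1 := hg i hi
        nlinarith [mul_nonneg hr0 (neg_nonneg.2 h)]
      · have h1 := hmin i (Finset.mem_filter.2 ⟨hi, h⟩)
        have h2 : r ≤ g i / t i := h1
        rw [le_div_iff₀ h] at h2
        linarith
    have hk0 : g k - r * t k = 0 := by
      rw [hr]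
      field_simp
      ring
    have hsub : (S.filter fun i => 0 < g i - r * t i) ⊂ S := by
      refine Finset.filter_ssubset.2 ⟨k, hkS, ?_⟩
      rw [hk0]
      exact lt_irrefl 0
    obtain ⟨T, h, hT, hTc, hh, hs⟩ := ih (S.filter fun i => 0 < g i - r * t i)
      (fun i => g i - r * t i) (by
        have := Finset.card_lt_card hsub
        omega) (fun i hi => (Finset.mem_filter.1 hi).2)
    refine ⟨T, h, hT.trans hsub.1, hTc, hh, ?_⟩
    rw [← hs, Finset.sum_filter]
    have h1 : ∑ i ∈ S, g i • a i = ∑ i ∈ S, (g i - r * t i) • a i := by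
      have h2 : ∑ i ∈ S, (g i - r * t i) • a i = ∑ i ∈ S, g i • a i - r • ∑ i ∈ S, t i • a i := by
        rw [Finset.smul_sum, ← Finset.sum_sub_distrib]
        exact Finset.sum_congr rfl fun i _ => by rw [sub_smul, mul_smul]
      rw [h2, ht, smul_zero, sub_zero]
    rw [h1]
    refine Finset.sum_congr rfl fun i hi => ?_
    split_ifs with h3
    · rfl
    · have h4 : g i - r * t i = 0 := le_antisymm (not_lt.1 h3) (hnn i hi)
      rw [h4, zero_smul]

theorem kkt_gen {V : Type*} [NormedAddCommGroup V] [InnerProductSpace ℝ V]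
    [FiniteDimensional ℝ V] {n : ℕ} (a : Fin n → V) (c : Fin n → ℝ) (w p : V)
    (hp : ∀ i, inner ℝ (a i) p ≤ c i)
    (hmax : ∀ x, (∀ i, inner ℝ (a i) x ≤ c i) → inner ℝ w x ≤ inner ℝ w p) :
    ∃ (S : Finset (Fin n)) (g : Fin n → ℝ), S.card ≤ finrank ℝ V ∧
      (∀ i ∈ S, 0 < g i ∧ inner ℝ (a i) p = c i) ∧ w = ∑ i ∈ S, g i • a i := by
  classical
  let b : Fin n → V := fun i => if inner ℝ (a i) p = c i then a i else 0
  have hf : ∀ x : V, (∀ i : Fin n, 0 ≤ (innerₛₗ ℝ (b i)) x) → 0 ≤ (innerₛₗ ℝ w) x := by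
    intro x hx
    simp only [innerₛₗ_apply_apply] at hx ⊢
    have hev : ∀ᶠ e : ℝ in nhdsWithin 0 (Set.Ioi 0), ∀ i, inner ℝ (a i) (p - e • x) ≤ c i := by
      rw [Filter.eventually_all]
      intro i
      rcases (hp i).lt_or_eq with h | h
      · have hc : Filter.Tendsto (fun e : ℝ => inner ℝ (a i) (p - e • x)) (nhdsWithin 0 (Set.Ioi 0))
            (nhds (inner ℝ (a i) p)) := by
          have h1 : Continuous fun e : ℝ => inner ℝ (a i) (p - e • x) := by fun_prop
          have h2 := h1.tendsto 0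
          simp only [zero_smul, sub_zero] at h2
          exact h2.mono_left nhdsWithin_le_nhds
        exact (hc.eventually (gt_mem_nhds h)).mono fun e he => le_of_lt he
      · filter_upwards [self_mem_nhdsWithin] with e he
        rw [inner_sub_right, inner_smul_right, h]
        have h1 := hx i
        simp only [b, if_pos h] at h1
        have h2 : 0 ≤ e * inner ℝ (a i) x := mul_nonneg (le_of_lt he) h1
        linarith
    obtain ⟨e, he, he0⟩ := (hev.and self_mem_nhdsWithin).exists
    have h1 := hmax _ he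
    rw [inner_sub_right, inner_smul_right] at h1
    have h2 : 0 ≤ e * inner ℝ w x := by linarith
    exact nonneg_of_mul_nonneg_right h2 he0
  obtain ⟨g, hg0, hg⟩ := Pool.Agent.Helper70.Art.farkas (fun i : Fin n => innerₛₗ ℝ (b i))
    (innerₛₗ ℝ w) hf
  have hw : w = ∑ i, g i • b i := by
    refine ext_inner_right ℝ fun x => ?_
    have h1 := hg x
    simp only [innerₛₗ_apply_apply] at h1
    rw [h1, sum_inner]
    exact Finset.sum_congr rfl fun i _ => by rw [real_inner_smul_left]
  have hw' : w = ∑ i ∈ Finset.univ.filter (fun i => inner ℝ (a i) p = c i ∧ 0 < g i),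
      g i • a i := by
    rw [hw, Finset.sum_filter]
    refine Finset.sum_congr rfl fun i _ => ?_
    by_cases h1 : inner ℝ (a i) p = c i
    · rcases (hg0 i).lt_or_eq with h2 | h2
      · simp only [b, h1, h2, and_self, if_true]
      · simp only [b, h1, ← h2, lt_irrefl, and_false, if_true, if_false, zero_smul]
    · simp only [b, h1, false_and, if_false, smul_zero]
  obtain ⟨T, h, hT, hTc, hh, hs⟩ := cone_car a _
    (Finset.univ.filter (fun i => inner ℝ (a i) p = c i ∧ 0 < g i)) g le_rfl fun i hi =>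
    (Finset.mem_filter.1 hi).2.2
  exact ⟨T, h, hTc, fun i hi => ⟨hh i hi, (Finset.mem_filter.1 (hT hi)).2.1⟩, hw'.trans hs⟩

theorem kkt {n : ℕ} (a : Fin n → EuclideanSpace ℝ (Fin 3)) (c : Fin n → ℝ)
    (w p : EuclideanSpace ℝ (Fin 3)) (hp : ∀ i, inner ℝ (a i) p ≤ c i)
    (hmax : ∀ x, (∀ i, inner ℝ (a i) x ≤ c i) → inner ℝ w x ≤ inner ℝ w p) :
    ∃ (S : Finset (Fin n)) (g : Fin n → ℝ), S.card ≤ 3 ∧
      (∀ i ∈ S, 0 < g i ∧ inner ℝ (a i) p = c i) ∧ w = ∑ i ∈ S, g i • a i := by
  have h := kkt_gen a c w p hp hmax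
  rwa [finrank_euclideanSpace_fin] at h

end Pool.Agent.Helper1.RS
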