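import Pool.Agent.Helper33.RS.Defs

/-!
# Block RS-L5: generic vectors
-/

set_option autoImplicit false

namespace Pool.Agent.Helper1.RS

open MeasureTheory Metric Set Pool.Agent.Helper59.Pack Pool.Agent.Helper69.MD
  Pool.Agent.Helper33.RS

/-- near every vector there is a generic one -/
theorem exists_gen (U : Finset E3) (v : E3) {ε : ℝ} (hε : 0 < ε) :
    ∃ w : E3, Gen U w ∧ ‖w - v‖ < ε := by
  classical
  by_contra hcon
  push Not at hcon
  have hsub : ball v ε ⊆ ⋃ J ∈ U.powerset.filter
      (fun J : Finset E3 => Submodule.span ℝ (J : Set E3) ≠ ⊤),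
      (Submodule.span ℝ (J : Set E3) : Set E3) := by
    intro w hw
    rw [mem_ball, dist_eq_norm] at hw
    by_contra hw2
    refine absurd (hcon w fun J hJ hJt hwJ => hw2 ?_) (not_le.2 hw)
    exact mem_biUnion (Finset.mem_filter.2 ⟨Finset.mem_powerset.2 hJ, hJt⟩) hwJ
  have h0 : volume (ball v ε) = 0 := by
    refine measure_mono_null hsub ?_
    refine (measure_biUnion_null_iff (Finset.countable_toSet _)).2 fun J hJ => ?_
    exact Measure.addHaar_submodule _ _ (Finset.mem_filter.1 hJ).2
  exact (measure_ball_pos volume v hε).ne' h0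

end Pool.Agent.Helper1.RS
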