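import Pool.Agent.Helper33.RS.Defs

/-!
# A largest simplex in a convex body
-/

set_option autoImplicit false

namespace Pool.Agent.Helper1.RS

open MeasureTheory Metric Set Matrix Pool.Agent.Helper59.Pack Pool.Agent.Helper69.MD

/-- the rows `(1, v i)` -/
noncomputable def rowM (v : Fin 4 → E3) : Matrix (Fin 4) (Fin 4) ℝ :=
  Matrix.of fun i => Fin.cons 1 (fun j => v i j)

lemma rowM_update (v : Fin 4 → E3) (i : Fin 4) (x : E3) :
    rowM (Function.update v i x) = (rowM v).updateRow i (Fin.cons 1 fun j => x j) := by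
  ext a b
  rw [Matrix.updateRow_apply]
  by_cases h : a = i
  · subst h
    simp only [rowM, Matrix.of_apply, Function.update_self, if_true]
  · simp only [rowM, Matrix.of_apply, Function.update_of_ne h, if_neg h]

lemma continuous_det_rowM : Continuous fun v : Fin 4 → E3 => (rowM v).det := by
  refine Continuous.matrix_det ?_
  refine continuous_pi fun i => continuous_pi fun j => ?_
  refine Fin.cases ?_ (fun j => ?_) j
  · simp only [rowM, Matrix.of_apply, Fin.cons_zero]
    exact continuous_const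
  · simp only [rowM, Matrix.of_apply, Fin.cons_succ]
    fun_prop

/-- the coordinates of `x`, and Cramer's rule -/
lemma exists_coord {v : Fin 4 → E3} (hv : (rowM v).det ≠ 0) (x : E3) :
    ∃ l : Fin 4 → ℝ, ∑ i, l i = 1 ∧ x = ∑ i, l i • v i ∧
      ∀ i, l i * (rowM v).det = (rowM (Function.update v i x)).det := by
  have hu : IsUnit (rowM v).det := isUnit_iff_ne_zero.2 hv
  let b : Fin 4 → ℝ := Fin.cons 1 fun j => x j
  obtain ⟨l, hl⟩ : ∃ l : Fin 4 → ℝ, l ᵥ* rowM v = b := by
    refine ⟨b ᵥ* (rowM v)⁻¹, ?_⟩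
    rw [Matrix.vecMul_vecMul, Matrix.nonsing_inv_mul _ hu, Matrix.vecMul_one]
  refine ⟨l, ?_, ?_, fun i => ?_⟩
  · have h := congrFun hl 0
    simp only [Matrix.vecMul, dotProduct, rowM, Matrix.of_apply, Fin.cons_zero, mul_one, b] at h
    exact h
  · ext j
    have h := congrFun hl j.succ
    simp only [Matrix.vecMul, dotProduct, rowM, Matrix.of_apply, Fin.cons_succ, b] at h
    rw [← h]
    simp
  · rw [rowM_update, ← Matrix.cramer_transpose_apply]
    have h : (rowM v)ᵀ *ᵥ l = b := by rw [Matrix.mulVec_transpose, hl]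
    rw [show (Fin.cons 1 fun j => x j : Fin 4 → ℝ) = b from rfl, ← h,
      Matrix.cramer_eq_adjugate_mulVec, Matrix.mulVec_mulVec, Matrix.adjugate_mul,
      Matrix.det_transpose, Matrix.smul_mulVec, Matrix.one_mulVec, Pi.smul_apply, smul_eq_mul,
      mul_comm]

lemma affineIndependent_of_det {v : Fin 4 → E3} (hv : (rowM v).det ≠ 0) :
    AffineIndependent ℝ v := by
  classical
  rw [affineIndependent_iff]
  intro s w h1 h2 e he
  let w' : Fin 4 → ℝ := fun i => if i ∈ s then w i else 0
  have h3 : w' ᵥ* rowM v = 0 := by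
    ext j
    refine Fin.cases ?_ (fun j => ?_) j
    · simp only [Matrix.vecMul, dotProduct, rowM, Matrix.of_apply, Fin.cons_zero, mul_one, w',
        Pi.zero_apply]
      rw [← Finset.sum_filter]
      simpa using h1
    · simp only [Matrix.vecMul, dotProduct, rowM, Matrix.of_apply, Fin.cons_succ, w',
        Pi.zero_apply, ite_mul, zero_mul]
      rw [← Finset.sum_filter]
      have h4 := congrArg (fun z : E3 => z j) h2
      simpa using h4
  have h4 := Matrix.eq_zero_of_vecMul_eq_zero hv h3
  have h5 := congrFun h4 e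
  simpa [w', he] using h5

lemma exists_det_ne_zero {K : Set E3} (hK : (interior K).Nonempty) :
    ∃ v : Fin 4 → E3, (∀ i, v i ∈ K) ∧ (rowM v).det ≠ 0 := by
  obtain ⟨c, hc⟩ := hK
  obtain ⟨ε, hε, hb⟩ := Metric.isOpen_iff.1 isOpen_interior c hc
  let u : Fin 3 → E3 := fun j => c + (ε / 2) • EuclideanSpace.single j (1 : ℝ)
  let v : Fin 4 → E3 := Fin.cons c u
  refine ⟨v, fun i => ?_, ?_⟩
  · refine Fin.cases ?_ (fun j => ?_) i
    · exact interior_subset hc
    · refine interior_subset (hb ?_)
      simp only [v, u, Fin.cons_succ, mem_ball, dist_eq_norm, add_sub_cancel_left, norm_smul,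
        PiLp.norm_single, norm_one, mul_one, Real.norm_eq_abs, abs_of_pos (half_pos hε)]
      linarith
  · have h : (rowM v).det = (ε / 2) ^ 3 := by
      have e1 : v 1 = u 0 := rfl
      have e2 : v 2 = u 1 := rfl
      have e3 : v 3 = u 2 := rfl
      have e0 : v 0 = c := rfl
      clear_value v
      rw [Matrix.det_succ_column_zero]
      simp [Fin.sum_univ_succ, rowM, Matrix.det_fin_three, Matrix.submatrix, Fin.succAbove, e0, e1,
        e2, e3, u]
      ring
    rw [h]
    positivity

/-- **The largest simplex.** -/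
theorem max_simplex {K : Set E3} (hK : IsConvexBody K) : ∃ v : Fin 4 → E3, (∀ i, v i ∈ K) ∧
    AffineIndependent ℝ v ∧ ∀ x ∈ K, ∃ l : Fin 4 → ℝ, ∑ i, l i = 1 ∧ x = ∑ i, l i • v i ∧
      ∀ i, |l i| ≤ 1 := by
  obtain ⟨v₀, hv₀, hd₀⟩ := exists_det_ne_zero hK.interior_nonempty
  have hcomp : IsCompact (Set.pi univ fun _ : Fin 4 => K) := isCompact_univ_pi fun _ => hK.isCompact
  obtain ⟨v, hv, hmax⟩ := hcomp.exists_isMaxOn ⟨v₀, fun i _ => hv₀ i⟩
    (continuous_det_rowM.abs.continuousOn)
  have hpos : 0 < |(rowM v).det| :=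
    (abs_pos.2 hd₀).trans_le (hmax (show v₀ ∈ Set.pi univ fun _ : Fin 4 => K from fun i _ => hv₀ i))
  have hd : (rowM v).det ≠ 0 := abs_pos.1 hpos
  refine ⟨v, fun i => hv i trivial, affineIndependent_of_det hd, fun x hx => ?_⟩
  obtain ⟨l, h1, h2, h3⟩ := exists_coord hd x
  refine ⟨l, h1, h2, fun i => ?_⟩
  have h4 : |(rowM (Function.update v i x)).det| ≤ |(rowM v).det| := by
    refine hmax (show Function.update v i x ∈ Set.pi univ fun _ : Fin 4 => K from fun j _ => ?_)
    by_cases hj : j = i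
    · subst hj
      rwa [Function.update_self]
    · rw [Function.update_of_ne hj]
      exact hv j trivial
  rw [← h3, abs_mul] at h4
  exact (mul_le_iff_le_one_left hpos).1 h4

end Pool.Agent.Helper1.RS
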